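import Pool.Agent.K1H40.CT.Stm

set_option autoImplicit false

namespace Pool.Agent.K1H99.CT

open Pool.Agent.K1H40.CT

universe u

/-- the order of the generators -/
def ordE : Fin (8 * 4) ≃ Fin 4 × Fin 8 :=
  finProdFinEquiv.symm.trans ((Equiv.prodComm (Fin 8) (Fin 4)).trans
    ((Equiv.refl (Fin 4)).prodCongr (finRotate 8).symm))

theorem ordE_mk (i : Fin 8) (j : Fin 4) (h : i.1 * 4 + j.1 < 8 * 4) :
    ordE ⟨i.1 * 4 + j.1, h⟩ = (j, (finRotate 8).symm i) := by
  revert h
  revert i j
  decide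

theorem rot0 : (finRotate 8).symm 0 = Fin.last 7 := by decide

theorem rotS : ∀ i : Fin 7, (finRotate 8).symm i.succ = i.castSucc := by decide

theorem prod_eq (R : Type u) [CommRing R] :
    Xi (fun c => ps R c (Fin.last 7)) * W0 R =
      ExteriorAlgebra.ιMulti R (8 * 4) (fun t => (Pi.single (ordE t) 1 : Fin 4 × Fin 8 → R)) := by
  rw [ExteriorAlgebra.ιMulti_apply, List.ofFn_mul, List.prod_flatten, List.map_ofFn,
    List.ofFn_succ, List.prod_cons]
  have key : ∀ i : Fin 8, (List.ofFn fun j : Fin 4 => ExteriorAlgebra.ι R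
      ((Pi.single (j, i) 1 : Fin 4 × Fin 8 → R))).prod =
      ps R 0 i * ps R 1 i * ps R 2 i * ps R 3 i := by
    intro i
    simp only [List.ofFn_succ, List.ofFn_zero, List.prod_cons, List.prod_nil, mul_one, ps, mul_assoc]
    rfl
  simp only [Function.comp_def, ordE_mk]
  simp only [rot0, rotS, key]
  rfl

/-- **Piece TOP3.** -/
theorem t_TOP3 : S_TOP3.{u} := by
  intro R _ r h
  rw [prod_eq] at h
  set b : Module.Basis (Fin (8 * 4)) R (Fin 4 × Fin 8 → R) :=
    (Pi.basisFun R (Fin 4 × Fin 8)).reindex ordE.symm with hb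
  have hv : (fun t => (Pi.single (ordE t) 1 : Fin 4 × Fin 8 → R)) = b := by
    funext t
    rw [hb, Module.Basis.reindex_apply, Equiv.symm_symm, Pi.basisFun_apply]
  rw [hv] at h
  have h2 := congrArg (ExteriorAlgebra.liftAlternating (R := R) (M := Fin 4 × Fin 8 → R)
    (Pi.single (8 * 4) b.det)) h
  rw [map_smul, ExteriorAlgebra.liftAlternating_apply_ιMulti, Pi.single_eq_same, map_zero,
    Module.Basis.det_self, smul_eq_mul, mul_one] at h2
  exact h2

end Pool.Agent.K1H99.CT
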